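import Pool.Agent.Q207.GB.Pow

/-!
# A class forcing that satisfies the forcing theorem and turns a proper class into a set

The definitions used here: formulas of set theory `Fml` and truth `Sat` in a class
(`Pool.Agent.W868.Defs`); names `IsName`, evaluation `val` (see `mem_val`), the extension `Ext`,
filters and dense sets (`Pool.Agent.Q207.CF.Defs`); transitive second order models `IsGBm`,
orders `IsPO`, generic filters `IsGen`, the forcing relation `Forces` and the forcing theorem
`ForcingTheorem` (`Pool.Agent.Q207.GB.Defs`).
-/

set_option autoImplicit false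

namespace Pool.Agent.Results.MP_a83877_lc.Disproof

open Q207.CF Q207.GB

/-- **Theorem.** There are a countable transitive second order model `(M, C)` of `GB⁻`, a notion
of class forcing `(P, L)` for `(M, C)` (a partial order with a largest element, `P, L ∈ C`) that
satisfies the forcing theorem over `(M, C)`, a filter `G` that is generic over `(M, C)` and a name
`σ ∈ M` such that the value `σ^G` is a proper class of `(M, C)`, that is, `σ^G ∈ C` and
`σ^G ∉ M`. -/
theorem result : ∃ (M C : Set ZFSet.{0}) (P L σ : ZFSet.{0}) (G : Set ZFSet.{0}),
    IsGBm M C ∧ M.Countable ∧ C.Countable ∧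
    P ∈ C ∧ L ∈ C ∧ IsPO P L ∧ ForcingTheorem M C P L ∧
    IsGen C P L G ∧ σ ∈ M ∧ IsName {p | p ∈ P} σ ∧ val G σ ∈ C ∧ val G σ ∉ M :=
  Q207.GB.main

end Pool.Agent.Results.MP_a83877_lc.Disproof
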